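import Pool.Agent.Helper26_Pf.Moments

/-!
# Pfaffians of Motzkin, Delannoy, Schröder and Narayana sequences

All four Pfaffian evaluations. The matrix `((j - i) x_{i+j-1})` (indices from `0`) is the Gram matrix
of the skew form `(f, g) ↦ L (f g' - f' g)` in the basis `1, X, X^2, …`, where `L` is the linear
functional with moments `x_m`. For the Motzkin, (shifted) Schröder and (shifted) Narayana sequences
`L` is a semicircle functional, and for the central Delannoy numbers an arcsine functional. In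
suitable monic bases made of Chebyshev polynomials the Gram matrix is tridiagonal, and the Pfaffian
can be read off.

The definitions `pf`, `motzkin`, `delannoy`, `schroder`, `narayana` are in
`Pool.Agent.Helper26_Pf.Pfaffian` and `Pool.Agent.Helper26_Pf.Moments`.
-/

set_option autoImplicit false

namespace Pool.Agent.Results.MP_c5a58e_co.HankelPfaffians

open Finset Polynomial Pool.Agent.Helper26_Pf

/-- The `2n × 2n` matrix `((j - i) x_{i+j-s})`, `1 ≤ i, j ≤ 2n`. The Lean index `i : Fin (2n)` stands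
for the index `i + 1`. The subtraction in the subscript is truncated, which matters only for the
`(1, 1)` entry, where the factor `j - i` is `0`. -/
def hm {K : Type*} [CommRing K] (x : ℕ → K) (s n : ℕ) : Matrix (Fin (2 * n)) (Fin (2 * n)) K :=
  Matrix.of fun i j => ((((j : ℕ) + 1 : ℕ) : K) - (((i : ℕ) + 1 : ℕ) : K)) *
    x (((i : ℕ) + 1) + ((j : ℕ) + 1) - s)

theorem hm_three {K : Type*} [CommRing K] (x : ℕ → K) (n : ℕ) (L : K[X] →ₗ[K] K)
    (h : ∀ m, x m = L (X ^ m)) (i j : Fin (2 * n)) :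
    hm x 3 n i j = (((j : ℕ) : K) - ((i : ℕ) : K)) * L (X ^ ((i : ℕ) + (j : ℕ) - 1)) := by
  unfold hm
  rw [Matrix.of_apply, h, show ((i : ℕ) + 1) + ((j : ℕ) + 1) - 3 = (i : ℕ) + (j : ℕ) - 1 by omega]
  push_cast
  ring

theorem hm_two {K : Type*} [CommRing K] (x : ℕ → K) (n : ℕ) (L : K[X] →ₗ[K] K)
    (h : ∀ m, x (m + 1) = L (X ^ m)) (i j : Fin (2 * n)) :
    hm x 2 n i j = (((j : ℕ) : K) - ((i : ℕ) : K)) * L (X ^ ((i : ℕ) + (j : ℕ) - 1)) := by
  unfold hm
  rw [Matrix.of_apply, show ((i : ℕ) + 1) + ((j : ℕ) + 1) - 2 = (i : ℕ) + (j : ℕ) by omega]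
  rcases Nat.eq_zero_or_pos ((i : ℕ) + (j : ℕ)) with h0 | h0
  · have hi : (i : ℕ) = 0 := by omega
    have hj : (j : ℕ) = 0 := by omega
    rw [hi, hj]
    simp
  · obtain ⟨m, hm⟩ : ∃ m, (i : ℕ) + (j : ℕ) = m + 1 := ⟨(i : ℕ) + (j : ℕ) - 1, by omega⟩
    rw [hm, h, Nat.add_sub_cancel]
    push_cast
    ring

theorem prod_sq {K : Type*} [CommRing K] (a : K) (n : ℕ) :
    ∏ k ∈ range n, (a * (4 * (k : K) + 1) * a ^ (2 * k)) =
      a ^ (n ^ 2) * ∏ k ∈ range n, (4 * (k : K) + 1) := by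
  induction n with
  | zero => simp
  | succ n ih =>
    rw [Finset.prod_range_succ, Finset.prod_range_succ, ih]
    ring

theorem prod_ca (m : ℕ) :
    ∏ k ∈ range (m + 1), ca 2 k =
      2 ^ ((m + 1) ^ 2 - 1) * (2 * ((m + 1 : ℕ) : ℚ) - 1) * ∏ k ∈ Icc 1 m, (4 * (k : ℚ) - 1) := by
  induction m with
  | zero =>
    simp [ca]
    norm_num
  | succ m ih =>
    rw [Finset.prod_range_succ, ih, Finset.prod_Icc_succ_top (by omega)]
    have e : (m + 1 + 1) ^ 2 - 1 = ((m + 1) ^ 2 - 1) + (2 * m + 3) := by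
      have h1 : (m + 1 + 1) ^ 2 = (m + 1) ^ 2 + (2 * m + 3) := by ring
      have h2 : 1 ≤ (m + 1) ^ 2 := Nat.one_le_pow _ _ (by omega)
      omega
    rw [e, pow_add]
    have hca : ca 2 (m + 1) =
        2 * (2 : ℚ) ^ (2 * m + 2) * (2 * (m : ℚ) + 3) * (4 * (m : ℚ) + 3) / (2 * (m : ℚ) + 1) := rfl
    rw [hca]
    have h3 : (2 * (m : ℚ) + 1) ≠ 0 := by positivity
    have h4 : (2 * ((m + 1 : ℕ) : ℚ) - 1) = 2 * m + 1 := by push_cast; ring
    rw [h4]
    push_cast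
    field_simp
    ring

/-- The four Pfaffian evaluations, for all `n ≥ 1`. -/
theorem result (n : ℕ) (hn : 1 ≤ n) :
    pf n (hm motzkin 3 n) = ∏ k ∈ range n, (4 * (k : ℚ) + 1) ∧
    pf n (hm delannoy 3 n) =
      2 ^ (n ^ 2 - 1) * (2 * (n : ℚ) - 1) * ∏ k ∈ Icc 1 (n - 1), (4 * (k : ℚ) - 1) ∧
    pf n (hm schroder 2 n) = 2 ^ (n ^ 2) * ∏ k ∈ range n, (4 * (k : ℚ) + 1) ∧
    pf n (hm narayana 2 n) = X ^ (n ^ 2) * ∏ k ∈ range n, (4 * (k : ℚ[X]) + 1) := by
  refine ⟨?_, ?_, ?_, ?_⟩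
  · rw [pf_semi n 1 1 1 _ (hm_three motzkin n _ mot_moment)]
    simp
  · rw [pf_arc n 3 2 _ (hm_three delannoy n _ del_moment)]
    obtain ⟨m, rfl⟩ : ∃ m, n = m + 1 := ⟨n - 1, by omega⟩
    rw [prod_ca, Nat.add_sub_cancel]
  · rw [pf_semi n 3 2 2 _ (hm_two schroder n _ sch_moment), prod_sq]
  · have h : ∀ m, narayana (m + 1) = Lf (1 + X) X (wt X X) (X ^ m) := by
      intro m
      rw [← nar_moment, Polynomial.aeval_X_left_apply]
    rw [pf_semi n (1 + X) X X _ (hm_two narayana n _ h), prod_sq]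

end Pool.Agent.Results.MP_c5a58e_co.HankelPfaffians
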